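import Pool.Agent.Helper59_PP.Loc
import Pool.Agent.Helper18_PP.Dzf
import Pool.Agent.Helper94_PP.Nch

/-!
# Squad PP, module DZQ: comparison of the `ℓ`-numbers of the stabilisers
-/

open scoped BigOperators

set_option linter.unusedSectionVars false

noncomputable section

namespace Pool.Agent.PP.H59

open Pool.Agent.PP Pool.Agent.PP.H18 Pool.Agent.Helper51_AWC Pool.Agent.Helper79_WRA

theorem br_of_mem {F G : Type} [Field F] [Group G] {R : Subgroup G} {a : G → F} {t : G}
    (h : t ∈ Subgroup.centralizer (R : Set G)) : br R a t = a t := if_pos h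

theorem br_of_not_mem {F G : Type} [Field F] [Group G] {R : Subgroup G} {a : G → F} {t : G}
    (h : t ∉ Subgroup.centralizer (R : Set G)) : br R a t = 0 := if_neg h

theorem isCl_br {F X : Type} [Field F] [Group X] {R : Subgroup X} (hR : R.Normal) {a : X → F}
    (ha : IsCl a) : IsCl (br R a) := by
  have hn : (Subgroup.centralizer (R : Set X)).Normal := inferInstance
  intro x y
  by_cases h : x ∈ Subgroup.centralizer (R : Set X)
  · rw [br_of_mem h, br_of_mem (hn.conj_mem x h y), ha]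
  · rw [br_of_not_mem h, br_of_not_mem]
    intro h'
    apply h
    have h2 := hn.conj_mem _ h' y⁻¹
    have e1 : y⁻¹ * (y * x * y⁻¹) * y⁻¹⁻¹ = x := by group
    rwa [e1] at h2

variable {ℓ : ℕ} {F : Type} [Field F] {G : Type} [Group G] [Finite G] {N : Subgroup G}
    [N.Normal] {b e : G → F} {f : G ⧸ N → F} {n : ℕ} {α : G →* Matrix (Fin n) (Fin n) F}
    {H P : Subgroup G}

/-- the centraliser of `P` in `H` -/
abbrev LL (H P : Subgroup G) : Subgroup H :=
  Subgroup.centralizer ((P.subgroupOf H : Subgroup H) : Set H)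

/-- the quotient map on `H` -/
abbrev qq (N : Subgroup G) [N.Normal] (H : Subgroup G) : H →* H.map (QuotientGroup.mk' N) :=
  (QuotientGroup.mk' N).subgroupMap H

/-- the map on the centraliser -/
abbrev qL (N : Subgroup G) [N.Normal] (H P : Subgroup G) :
    LL H P →* (LL H P).map (qq N H) := (qq N H).subgroupMap (LL H P)

/-- the truncation of the class function `e` to the centraliser of `P`, on `H` -/
abbrev ea (H P : Subgroup G) (e : G → F) : H → F := br (P.subgroupOf H) (fun t : H => e t)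

theorem mem_LL (hPH : P ≤ H) {x : H} :
    x ∈ LL H P ↔ (x : G) ∈ Subgroup.centralizer (P : Set G) := by
  rw [Subgroup.mem_centralizer_iff, Subgroup.mem_centralizer_iff]
  constructor
  · intro h p hp
    exact congrArg Subtype.val (h ⟨p, hPH hp⟩ (Subgroup.mem_subgroupOf.2 hp))
  · intro h p hp
    exact Subtype.ext (h p (Subgroup.mem_subgroupOf.1 hp))

/-- the `ℓ`-number by the truncation -/
theorem lnum_eq (hnls : NlsStmt) (hF : GoodF ℓ F) (H P : Subgroup G)
    (hn : (P.subgroupOf H).Normal) (hP : IsPGroup ℓ P) (e : G → F) (he : IsCl e) :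
    lnum H e = {θ : H → F | θ ∈ IBr F H ∧ actF (ea H P e) θ = θ}.ncard := by
  have h1 : IsPGroup ℓ (P.subgroupOf H) := hP.comap_subtype
  have h2 : IsCl (fun t : H => e t) := fun x y => he _ _
  have h3 : {θ : H → F | θ ∈ IBr F H ∧ actF (fun t : H => e t) θ = θ} =
      {θ : H → F | θ ∈ IBr F H ∧ actF (ea H P e) θ = θ} := by
    ext θ
    simp only [Set.mem_ofPred_eq]
    refine and_congr_right fun hθ => ?_
    obtain ⟨k, ρ, hρ, rfl⟩ := hθ
    rw [((hnls ℓ F hF H (P.subgroupOf H) hn h1 k ρ hρ).2 _ h2).2]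
  unfold lnum
  rw [h3]

namespace LD

variable (D : LD ℓ N b e f α H P)

include D

theorem normal : (P.subgroupOf H).Normal :=
  (Subgroup.normal_subgroupOf_iff_le_normalizer D.hPH).2 D.hHn

theorem normal' : ((P.map (QuotientGroup.mk' N)).subgroupOf (H.map (QuotientGroup.mk' N))).Normal := by
  rw [Subgroup.normal_subgroupOf_iff_le_normalizer (Subgroup.map_mono D.hPH)]
  rintro _ ⟨x, hx, rfl⟩
  rw [Subgroup.mem_normalizer_iff]
  have h1 : ∀ z ∈ Subgroup.normalizer (P : Set G), ∀ y,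
      y ∈ P.map (QuotientGroup.mk' N) → QuotientGroup.mk' N z * y * (QuotientGroup.mk' N z)⁻¹ ∈
        P.map (QuotientGroup.mk' N) := by
    rintro z hz _ ⟨p, hp, rfl⟩
    exact ⟨z * p * z⁻¹, (Subgroup.mem_normalizer_iff.1 hz p).1 hp, by
      rw [map_mul, map_mul, map_inv]⟩
  intro y
  constructor
  · exact h1 x (D.hHn hx) y
  · intro hy
    have h2 := h1 x⁻¹ ((Subgroup.normalizer (P : Set G)).inv_mem (D.hHn hx)) _ hy
    rw [map_inv] at h2
    have e1 : (QuotientGroup.mk' N x)⁻¹ * (QuotientGroup.mk' N x * y * (QuotientGroup.mk' N x)⁻¹) *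
        (QuotientGroup.mk' N x)⁻¹⁻¹ = y := by group
    rwa [e1] at h2

theorem qq_ker : (qq N H).ker ≤ LL H P := by
  intro x hx
  rw [mem_LL D.hPH]
  have h1 : (x : G) ∈ N := by
    have h2 : QuotientGroup.mk' N (x : G) = 1 := congrArg Subtype.val hx
    exact (QuotientGroup.eq_one_iff _).1 h2
  rw [Subgroup.mem_centralizer_iff]
  intro p hp
  have h3 : (x : G) * p * (x : G)⁻¹ ∈ P := (Subgroup.mem_normalizer_iff.1 (D.hHn x.2) p).1 hp
  have h4 : (x : G) * p * (x : G)⁻¹ * p⁻¹ ∈ P ⊓ N := by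
    refine Subgroup.mem_inf.2 ⟨P.mul_mem h3 (P.inv_mem hp), ?_⟩
    have h5 : p * (x : G)⁻¹ * p⁻¹ ∈ N := D.nb.1.conj_mem _ (inv_mem h1) p
    have h6 := mul_mem h1 h5
    have e1 : (x : G) * (p * (x : G)⁻¹ * p⁻¹) = (x : G) * p * (x : G)⁻¹ * p⁻¹ := by group
    rwa [e1] at h6
  rw [D.good.2.1, Subgroup.mem_bot] at h4
  have h7 : (x : G) * p * (x : G)⁻¹ = p := mul_inv_eq_one.1 h4
  exact (mul_inv_eq_iff_eq_mul.1 h7).symm

theorem mem_ker {z : LL H P} : z ∈ (qL N H P).ker ↔ ((z : H) : G) ∈ N := by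
  rw [MonoidHom.mem_ker]
  constructor
  · intro h
    have h1 : qq N H (z : H) = 1 := congrArg Subtype.val h
    have h2 : QuotientGroup.mk' N ((z : H) : G) = 1 := congrArg Subtype.val h1
    exact (QuotientGroup.eq_one_iff _).1 h2
  · intro h
    apply Subtype.ext
    apply Subtype.ext
    exact (QuotientGroup.eq_one_iff _).2 h

/-- the centraliser of `P` in `H` and in `G` -/
def eL : LL H P ≃* Subgroup.centralizer (P : Set G) where
  toFun x := ⟨((x : H) : G), (mem_LL D.hPH).1 x.2⟩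
  invFun x := ⟨⟨(x : G), D.hC x.2⟩, (mem_LL D.hPH).2 x.2⟩
  left_inv _ := rfl
  right_inv _ := rfl
  map_mul' _ _ := rfl

/-- the kernel and the fixed points -/
def eK : (qL N H P).ker ≃* fixN (hat N P) where
  toFun z := ⟨⟨(((z : LL H P) : H) : G), D.mem_ker.1 z.2⟩,
    mem_fix.2 ((mem_LL D.hPH).1 (z : LL H P).2)⟩
  invFun h := ⟨⟨⟨((h : N) : G), D.hC ((mem_fix (h := (h : N))).1 h.2)⟩,
    (mem_LL D.hPH).2 ((mem_fix (h := (h : N))).1 h.2)⟩, D.mem_ker.2 (h : N).2⟩
  left_inv _ := rfl
  right_inv _ := rfl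
  map_mul' _ _ := rfl

theorem idem_L (hbrm : BrmStmt) :
    mulF (fun t : LL H P => e ((t : H) : G)) (fun t : LL H P => b ((t : H) : G)) =
      fun t : LL H P => e ((t : H) : G) := by
  obtain ⟨h1, h2, _⟩ := hbrm ℓ F D.hF G P (Subgroup.centralizer (P : Set G)) D.good.1 le_rfl
    (D.hC.trans D.hHn)
  have h3 := h1 e b D.he.1 D.nb.2.1
  rw [D.heb] at h3
  have h4 := h2 e b
  rw [← h3] at h4
  have h5 : ∀ a : G → F, (fun t : Subgroup.centralizer (P : Set G) => br P a t) =
      fun t : Subgroup.centralizer (P : Set G) => a t := by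
    intro a
    funext t
    exact br_of_mem t.2
  rw [h5, h5] at h4
  have h6 := mulF_equiv D.eL (fun t : Subgroup.centralizer (P : Set G) => e t)
    (fun t : Subgroup.centralizer (P : Set G) => b t)
  rw [← h4] at h6
  exact h6

/-- a representation of the centraliser on which `e` acts as the identity -/
theorem ovr (hbrm : BrmStmt) (heig : EigStmt) (hbk : BlkStmt) (hm : MatStmt) {n' : ℕ}
    {ρ' : fixN (hat N P) →* Matrix (Fin n') (Fin n') F} (h1 : IsIrr ρ')
    (h2 : ev ρ' (fun x => b (x : N)) = 1) (k : ℕ) (V : LL H P →* Matrix (Fin k) (Fin k) F)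
    (hV : IsIrr V) (hact : actF (fun t : LL H P => ea H P e t) (tr V) = tr V)
    (w : fixN (hat N P) → F) (hw : ev ρ' w = 0) :
    ev (V.comp (qL N H P).ker.subtype) (fun z => w (D.eK z)) = 0 := by
  have e0 : (fun t : LL H P => ea H P e t) = fun t : LL H P => e ((t : H) : G) := by
    funext t
    exact br_of_mem t.2
  rw [e0] at hact
  have hcl : IsCl (fun t : LL H P => e ((t : H) : G)) := fun x y => D.he.1 _ _
  obtain ⟨c, hc1, hc2, _⟩ := heig F (LL H P) k V hV _ hcl
  have hc : c = 1 := by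
    rw [hact] at hc2
    obtain ⟨x, hx⟩ := H33.tr_ne_zero hV
    have h3 := congrFun hc2 x
    rw [Pi.smul_apply, smul_eq_mul] at h3
    have h4 : (1 - c) * tr V x = 0 := by linear_combination h3
    rcases mul_eq_zero.1 h4 with h5 | h5
    · exact (sub_eq_zero.1 h5).symm
    · exact absurd h5 hx
  rw [hc, map_one] at hc1
  have h3 : ev V (fun t : LL H P => b ((t : H) : G)) = 1 := by
    have h4 := congrArg (ev V) (D.idem_L hbrm)
    rw [ev_mulF, hc1, one_mul] at h4
    exact h4
  -- the function `b` is supported in the kernel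
  have h4 : ev (V.comp (qL N H P).ker.subtype) (fun z => b ((D.eK z : N) : G)) = 1 := by
    rw [← h3]
    classical
    have := Fintype.ofFinite (LL H P)
    have := Fintype.ofFinite (qL N H P).ker
    unfold ev
    rw [finsum_eq_sum_of_fintype, finsum_eq_sum_of_fintype]
    have h5 : ∀ t : LL H P, t ∉ (Finset.univ.image fun z : (qL N H P).ker => (z : LL H P)) →
        b ((t : H) : G) • V t = 0 := by
      intro t ht
      have h6 : ((t : H) : G) ∉ N := by
        intro h7
        apply ht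
        rw [Finset.mem_image]
        exact ⟨⟨t, D.mem_ker.2 h7⟩, Finset.mem_univ _, rfl⟩
      rw [D.nb.2.2.1 _ h6, zero_smul]
    rw [← Finset.sum_subset (Finset.subset_univ
      (Finset.univ.image fun z : (qL N H P).ker => (z : LL H P)))
      (fun t _ ht => h5 t ht), Finset.sum_image (fun x _ y _ h => Subtype.ext h)]
    rfl
  have h5 : mulF w (fun x : fixN (hat N P) => b (x : N)) = 0 :=
    (hm ℓ F D.hF _ _ (D.dzb' hbk)).2.1 n' ρ' h1 h2 w hw
  have h6 := mulF_equiv D.eK w (fun x : fixN (hat N P) => b (x : N))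
  rw [h5] at h6
  have h7 := congrArg (ev (V.comp (qL N H P).ker.subtype)) h6
  rw [ev_mulF, h4, mul_one] at h7
  rw [h7]
  unfold ev
  simp only [Pi.zero_apply, zero_smul, finsum_zero]

/-- the data of the comparison -/
theorem cd (hbrm : BrmStmt) (heig : EigStmt) (hbk : BlkStmt) (hm : MatStmt) (hc : IbcStmt)
    (heps : EpsStmt) [hL : (LL H P).Normal] {n' : ℕ}
    {ρ' : fixN (hat N P) →* Matrix (Fin n') (Fin n') F} (h1 : IsIrr ρ')
    (h2 : ev ρ' (fun x => b (x : N)) = 1) :
    CD ℓ (qq N H) (LL H P) (ea H P e)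
      (ea (H.map (QuotientGroup.mk' N)) (P.map (QuotientGroup.mk' N)) f)
      ((D.bt h1 h2 hm hc).comp D.eL.toMonoidHom) where
  hF := D.hF
  surj := MonoidHom.subgroupMap_surjective _ _
  ker := D.qq_ker
  ha := isCl_br D.normal (fun x y => D.he.1 _ _)
  hal h hh := br_of_not_mem hh
  ha' := isCl_br D.normal' (fun x y => D.hf.1 _ _)
  hal' h hh := by
    apply br_of_not_mem
    intro h3
    apply hh
    have h4 : (h : G ⧸ N) ∈ Subgroup.centralizer
        ((P.map (QuotientGroup.mk' N) : Subgroup (G ⧸ N)) : Set (G ⧸ N)) :=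
      (mem_LL (Subgroup.map_mono D.hPH)).1 h3
    rw [D.hQ] at h4
    obtain ⟨g, hg, hgh⟩ := h4
    exact ⟨⟨g, D.hC hg⟩, (mem_LL D.hPH).2 hg, Subtype.ext hgh⟩
  irr := by
    have h3 : ((D.bt h1 h2 hm hc).comp D.eL.toMonoidHom).comp (qL N H P).ker.subtype =
        ρ'.comp D.eK.toMonoidHom := by
      ext1 z
      exact D.bt_fix h1 h2 hm hc (D.eK z)
    rw [h3]
    exact irr_comp_equiv D.eK h1
  sum g := by
    have h3 : ∀ c : (qL N H P).ker,
        ea H P e ((g * (c : LL H P) : LL H P) : H) •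
          ((D.bt h1 h2 hm hc).comp D.eL.toMonoidHom) (g * (c : LL H P)) =
        D.bt h1 h2 hm hc (D.eL g) *
          (e (((D.eL g : Subgroup.centralizer (P : Set G)) : G) * ((D.eK c : N) : G)) •
            ρ' (D.eK c)) := by
      intro c
      rw [← D.bt_fix h1 h2 hm hc (D.eK c), mul_smul_comm]
      have h4 : ea H P e ((g * (c : LL H P) : LL H P) : H) =
          e (((D.eL g : Subgroup.centralizer (P : Set G)) : G) * ((D.eK c : N) : G)) :=
        br_of_mem (g * (c : LL H P)).2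
      rw [h4, map_mul]
      rfl
    rw [finsum_congr h3]
    have := Fintype.ofFinite (qL N H P).ker
    have := Fintype.ofFinite (fixN (hat N P))
    rw [finsum_eq_sum_of_fintype, ← Finset.mul_sum]
    have h5 : (∑ c : (qL N H P).ker,
        e (((D.eL g : Subgroup.centralizer (P : Set G)) : G) * ((D.eK c : N) : G)) •
          ρ' (D.eK c)) =
        ev ρ' (fun x => e (((D.eL g : Subgroup.centralizer (P : Set G)) : G) *
          ((x : N) : G))) := by
      unfold ev
      rw [finsum_eq_sum_of_fintype]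
      exact Equiv.sum_comp D.eK.toEquiv (fun x : fixN (hat N P) =>
        e (((D.eL g : Subgroup.centralizer (P : Set G)) : G) * ((x : N) : G)) • ρ' x)
    rw [h5, D.bt_sum h1 h2 hm hc]
    have h6 : ea (H.map (QuotientGroup.mk' N)) (P.map (QuotientGroup.mk' N)) f (qq N H (g : H)) =
        f ((((g : H) : G)) : G ⧸ N) := by
      apply br_of_mem
      rw [mem_LL (Subgroup.map_mono D.hPH), D.hQ]
      exact ⟨((g : H) : G), (mem_LL D.hPH).1 g.2, rfl⟩
    rw [h6]
    rfl
  ovr k V hV hact w hw := by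
    have h3 : w = fun z => (fun x => w (D.eK.symm x)) (D.eK z) := by
      funext z
      show w z = w (D.eK.symm (D.eK z))
      rw [MulEquiv.symm_apply_apply]
    rw [h3]
    refine D.ovr hbrm heig hbk hm h1 h2 k V hV hact (fun x => w (D.eK.symm x)) ?_
    have h4 : ((D.bt h1 h2 hm hc).comp D.eL.toMonoidHom).comp (qL N H P).ker.subtype =
        ρ'.comp D.eK.toMonoidHom := by
      ext1 z
      exact D.bt_fix h1 h2 hm hc (D.eK z)
    rw [h4] at hw
    have h5 := H18.ev_equiv D.eK ρ' (fun x => w (D.eK.symm x))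
    rw [← h5, ← h3]
    exact hw
  impl x := by
    obtain ⟨Z, hZ⟩ := D.bt_conj h1 h2 hm hc hbk (D.hHn x.2)
    refine ⟨Z, Z.isUnit, fun g => ?_⟩
    exact D.bt_conj' h1 h2 hm hc (D.hHn x.2) Z hZ (D.eL g) (D.eL (MulAut.conjNormal x g)) rfl
  comm x y hk Zx Zy hZx hZy hx hy := by
    obtain ⟨X, rfl⟩ := hZx
    obtain ⟨Y, rfl⟩ := hZy
    have key : ∀ (z : H) (Z : (Matrix (Fin n') (Fin n') F)ˣ),
        (∀ g : LL H P, (Z : Matrix (Fin n') (Fin n') F) *
          ((D.bt h1 h2 hm hc).comp D.eL.toMonoidHom) g =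
          ((D.bt h1 h2 hm hc).comp D.eL.toMonoidHom) (MulAut.conjNormal z g) * Z) →
        Impl ρ' (cj N (z : G)) Z := by
      intro z Z hz h h' hh
      have h3 := hz (D.eK.symm h : LL H P)
      have h4 : ((D.bt h1 h2 hm hc).comp D.eL.toMonoidHom) (D.eK.symm h : LL H P) = ρ' h :=
        D.bt_fix h1 h2 hm hc h
      have h5 : ((D.bt h1 h2 hm hc).comp D.eL.toMonoidHom)
          (MulAut.conjNormal z (D.eK.symm h : LL H P)) = ρ' h' := by
        rw [← D.bt_fix h1 h2 hm hc h']
        have h6 : D.eL (MulAut.conjNormal z (D.eK.symm h : LL H P)) =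
            ⟨((h' : N) : G), mem_fix.1 h'.2⟩ := by
          apply Subtype.ext
          show ((z : G) * ((h : N) : G) * (z : G)⁻¹) = ((h' : N) : G)
          rw [hh, MulAut.conjNormal_apply]
        show D.bt h1 h2 hm hc (D.eL (MulAut.conjNormal z (D.eK.symm h : LL H P))) = _
        rw [h6]
      rw [h4, h5] at h3
      exact h3
    exact D.bt_comm h1 h2 hm hc heps (D.hHn x.2) (D.hHn y.2) ((mem_LL D.hPH).1 hk) X Y
      (key x X hx) (key y Y hy)

theorem main (hcl : ClStmt) (hclu : CluStmt) (hnls : NlsStmt) (hbrm : BrmStmt) (heig : EigStmt)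
    (hbk : BlkStmt) (hm : MatStmt) (hc : IbcStmt) (heps : EpsStmt) :
    lnum H e = lnum (H.map (QuotientGroup.mk' N)) f := by
  obtain ⟨n', ρ', h1, h2⟩ := D.exists_rep hm hbk
  have hn := D.normal
  have hL : (LL H P).Normal := inferInstance
  rw [lnum_eq hnls D.hF H P D.normal D.good.1 e D.he.1,
    lnum_eq hnls D.hF (H.map (QuotientGroup.mk' N)) (P.map (QuotientGroup.mk' N)) D.normal'
      (D.good.1.map _) f D.hf.1]
  exact (D.cd hbrm heig hbk hm hc heps h1 h2).core hcl hclu

end LD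

theorem dzq (hcl : ClStmt) (hclu : CluStmt) (heps : EpsStmt) (hbk : BlkStmt) (hm : MatStmt)
    (hnco : NcoStmt) (hnls : NlsStmt) (hbrm : BrmStmt) (heig : EigStmt) (hc : IbcStmt) :
    DzqStmt := by
  intro ℓ F _ hF G _ _ N _ b e n α hNB hα hαb he heb f hf hsum c hcc hcn hcg
  obtain ⟨_, hc2, hc3⟩ := mem_chainsOn.1 hcc
  have htop := H94.top_mem hc3 ⟨_, hc2⟩
  have hstab : ∀ x, x ∈ stab c ↔ ∀ E ∈ c, x ∈ Subgroup.normalizer (E : Set G) := by
    intro x
    simp only [stab, Subgroup.mem_iInf]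
  have hPH : top c ≤ stab c := by
    intro x hx
    rw [hstab]
    exact fun E hE => hcn E hE hx
  have hHn : stab c ≤ Subgroup.normalizer ((top c : Subgroup G) : Set G) := by
    intro x hx
    exact (hstab x).1 hx _ htop.1
  have hC : Subgroup.centralizer ((top c : Subgroup G) : Set G) ≤ stab c := by
    intro x hx
    rw [hstab]
    intro E hE
    have h1 : x ∈ Subgroup.centralizer (E : Set G) :=
      Subgroup.centralizer_le (fun y hy => htop.2 E hE hy) hx
    exact Subgroup.centralizer_le_normalizer _ h1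
  have hQ := ((hnco ℓ F hF G N ⊤ b hNB inferInstance le_top).1 c hcc hcn hcg).2.2.2.2.2
  have D : LD ℓ N b e f α (stab c) (top c) := ⟨hF, hNB, hα, hαb, he, heb, hf, hsum, hcg, hPH, hHn,
    hC, hQ⟩
  exact D.main hcl hclu hnls hbrm heig hbk hm hc heps

end Pool.Agent.PP.H59
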