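import Pool.Agent.Helper58_CL.Stmt

/-!
# Squad PP: existence of a lift of the nonzero scalars to complex numbers

The Teichmueller representatives in the ring of Witt vectors of `F` are roots of unity, so the
field they generate is algebraic over the rational numbers and embeds in the complex numbers.
-/

noncomputable section

namespace Pool.Agent.PP.H59

open Pool.Agent.PP

theorem exists_lift (ℓ : ℕ) (F : Type) [Field F] (hF : GoodF ℓ F) : ∃ τ : F → ℂ, IsLift τ := by
  have : Fact ℓ.Prime := ⟨hF.prime⟩
  have := hF.char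
  let W := WittVector ℓ F
  have : IsDomain W := inferInstanceAs (IsDomain (WittVector ℓ F))
  let K := FractionRing W
  -- characteristic zero
  have hchar : ∀ q : ℕ, q.Prime → (q : K) ≠ 0 := by
    intro q hq h0
    have h2 : (q : W) = 0 := by
      apply IsFractionRing.injective W K
      rw [map_zero, map_natCast]
      exact h0
    have h3 : (q : F) = 0 := by
      have := congrArg (WittVector.constantCoeff (p := ℓ) (R := F)) h2
      rwa [map_natCast, map_zero] at this
    have h4 : ℓ ∣ q := (CharP.cast_eq_zero_iff F ℓ q).1 h3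
    have h5 : ℓ = q := (Nat.prime_dvd_prime_iff_eq hF.prime hq).1 h4
    subst h5
    exact WittVector.p_nonzero ℓ F h2
  have : CharZero K := by
    obtain ⟨q, hq⟩ := CharP.exists K
    rcases CharP.char_is_prime_or_zero K q with h | h
    · exact absurd (CharP.cast_eq_zero K q) (hchar q h)
    · subst h
      exact CharP.charP_to_charZero K
  let t : F → K := fun x => algebraMap W K (WittVector.teichmuller ℓ x)
  have ht1 : t 1 = 1 := by
    show algebraMap W K (WittVector.teichmuller ℓ 1) = 1
    rw [map_one, map_one]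
  have htm : ∀ a b, t (a * b) = t a * t b := by
    intro a b
    show algebraMap W K (WittVector.teichmuller ℓ (a * b)) = _
    rw [map_mul, map_mul]
  have htp : ∀ a (n : ℕ), t (a ^ n) = t a ^ n := by
    intro a n
    show algebraMap W K (WittVector.teichmuller ℓ (a ^ n)) = _
    rw [map_pow, map_pow]
  have hti : ∀ a, t a = 1 → a = 1 := by
    intro a ha
    have h1 : algebraMap W K (WittVector.teichmuller ℓ a) = algebraMap W K 1 := by
      rw [map_one]
      exact ha
    have h2 : WittVector.teichmuller ℓ a = 1 := IsFractionRing.injective W K h1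
    have h3 := congrArg (fun w : WittVector ℓ F => w.coeff 0) h2
    simpa using h3
  have hint : ∀ x : F, x ≠ 0 → IsIntegral ℚ (t x) := by
    intro x hx
    obtain ⟨n, hn, hxn⟩ := hF.tors x hx
    refine IsIntegral.of_pow hn ?_
    rw [← htp, hxn, ht1]
    exact isIntegral_one
  let L : IntermediateField ℚ K := IntermediateField.adjoin ℚ (t '' {x | x ≠ 0})
  have : Algebra.IsAlgebraic ℚ L := by
    apply IntermediateField.isAlgebraic_adjoin
    rintro _ ⟨x, hx, rfl⟩
    exact hint x hx
  let φ : L →ₐ[ℚ] ℂ := IsAlgClosed.lift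
  have hmem : ∀ x : F, x ≠ 0 → t x ∈ L := fun x hx =>
    IntermediateField.subset_adjoin ℚ _ ⟨x, hx, rfl⟩
  classical
  let τ : F → ℂ := fun x => if h : x ≠ 0 then φ ⟨t x, hmem x h⟩ else 0
  have hτ : ∀ x (h : x ≠ 0), τ x = φ ⟨t x, hmem x h⟩ := fun x h => dif_pos h
  refine ⟨τ, ?_, ?_, ?_⟩
  · rw [hτ 1 one_ne_zero]
    have h1 : (⟨t 1, hmem 1 one_ne_zero⟩ : L) = 1 := Subtype.ext ht1
    rw [h1, map_one]
  · intro a b ha hb
    rw [hτ a ha, hτ b hb, hτ _ (mul_ne_zero ha hb), ← map_mul]
    have h1 : (⟨t (a * b), hmem _ (mul_ne_zero ha hb)⟩ : L) =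
        ⟨t a, hmem a ha⟩ * ⟨t b, hmem b hb⟩ := Subtype.ext (htm a b)
    rw [h1]
  · intro a ha h
    rw [hτ a ha] at h
    have h1 : (⟨t a, hmem a ha⟩ : L) = 1 := by
      have h2 : φ ⟨t a, hmem a ha⟩ = φ 1 := by rw [h, map_one]
      exact φ.toRingHom.injective h2
    exact hti a (congrArg Subtype.val h1)

end Pool.Agent.PP.H59
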