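import Pool.Agent.Helper59_PP.GalF
import Pool.Agent.Helper59_PP.Lift

/-!
# Squad PP, module DZQ: comparison of the numbers of irreducible modular characters of `X` and of
a quotient `X'`, by the counting lemma
-/

open scoped BigOperators

set_option linter.unusedSectionVars false

noncomputable section

namespace Pool.Agent.PP.H59

open Pool.Agent.PP Pool.Agent.PP.H33

section sums

variable {X X' : Type} [Group X] [Finite X] [Group X'] [Finite X'] (q : X →* X')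
  (hq : Function.Surjective q)

include hq

theorem sum_fib (g : X' → ℂ) : ∑ᶠ x : X, g (q x) = (Nat.card q.ker : ℂ) * ∑ᶠ y : X', g y := by
  classical
  have := Fintype.ofFinite X
  have := Fintype.ofFinite X'
  have := Fintype.ofFinite q.ker
  rw [finsum_eq_sum_of_fintype, finsum_eq_sum_of_fintype, Finset.sum_comp g q,
    Finset.image_univ_of_surjective hq, Finset.mul_sum]
  refine Finset.sum_congr rfl fun y _ => ?_
  have h1 : (Finset.univ.filter fun x : X => q x = y).card = Nat.card q.ker := by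
    rw [MonoidHom.card_fiber_eq_of_mem_range q (hq y) (hq 1), Nat.card_eq_fintype_card,
      Fintype.card_subtype]
    apply congrArg
    ext x
    simp only [Finset.mem_filter, MonoidHom.mem_ker]
  rw [h1, nsmul_eq_mul]

theorem card_dom : Nat.card X = Nat.card q.ker * Nat.card X' := by
  have h := sum_fib q hq (fun _ => (1 : ℂ))
  have := Fintype.ofFinite X
  have := Fintype.ofFinite X'
  rw [finsum_eq_sum_of_fintype, finsum_eq_sum_of_fintype, Finset.sum_const, Finset.sum_const,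
    Finset.card_univ, Finset.card_univ, nsmul_eq_mul, nsmul_eq_mul, mul_one, mul_one,
    ← Nat.card_eq_fintype_card, ← Nat.card_eq_fintype_card] at h
  exact_mod_cast h

end sums

section core

variable {F X X' : Type} [Field F] [Group X] [Finite X] [Group X'] [Finite X'] {ℓ : ℕ}

theorem kr_unit {n m : ℕ} {A : Matrix (Fin n) (Fin n) F} {B : Matrix (Fin m) (Fin m) F}
    (hA : IsUnit A) (hB : IsUnit B) : IsUnit (kr A B) := by
  obtain ⟨u, rfl⟩ := hA
  obtain ⟨v, rfl⟩ := hB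
  refine ⟨⟨kr u v, kr (u⁻¹ : (Matrix (Fin n) (Fin n) F)ˣ) (v⁻¹ : (Matrix (Fin m) (Fin m) F)ˣ),
    ?_, ?_⟩, rfl⟩
  · rw [← kr_mul, Units.mul_inv, Units.mul_inv, kr_one]
  · rw [← kr_mul, Units.inv_mul, Units.inv_mul, kr_one]

theorem trace_conj_eq {n : ℕ} {Z A B : Matrix (Fin n) (Fin n) F} (hZ : IsUnit Z)
    (h : Z * A = B * Z) : B.trace = A.trace := by
  obtain ⟨u, rfl⟩ := hZ
  have h1 : B = (u : Matrix (Fin n) (Fin n) F) * A *
      ((u⁻¹ : (Matrix (Fin n) (Fin n) F)ˣ) : Matrix (Fin n) (Fin n) F) := by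
    rw [h, mul_assoc, Units.mul_inv, mul_one]
  rw [h1, Matrix.trace_mul_comm, ← mul_assoc, Units.inv_mul, one_mul]

/-- The data of the comparison. -/
structure CD (ℓ : ℕ) (q : X →* X') (L : Subgroup X) [L.Normal] (a : X → F) (a' : X' → F) {m : ℕ}
    (β : L →* Matrix (Fin m) (Fin m) F) : Prop where
  hF : GoodF ℓ F
  surj : Function.Surjective q
  ker : q.ker ≤ L
  ha : IsCl a
  hal : ∀ h, h ∉ L → a h = 0
  ha' : IsCl a'
  hal' : ∀ h, h ∉ L.map q → a' h = 0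
  irr : IsIrr (β.comp (q.subgroupMap L).ker.subtype)
  sum : ∀ g : L, ∑ᶠ c : (q.subgroupMap L).ker, a ((g * c : L) : X) • β (g * c) =
    Matrix.scalar (Fin m) (a' (q g))
  ovr : ∀ (k : ℕ) (V : L →* Matrix (Fin k) (Fin k) F), IsIrr V →
    actF (fun t : L => a t) (tr V) = tr V → ∀ w : (q.subgroupMap L).ker → F,
    ev (β.comp (q.subgroupMap L).ker.subtype) w = 0 →
    ev (V.comp (q.subgroupMap L).ker.subtype) w = 0
  impl : ∀ x : X, ∃ Z : Matrix (Fin m) (Fin m) F, IsUnit Z ∧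
    ∀ g : L, Z * β g = β (MulAut.conjNormal x g) * Z
  comm : ∀ (x y : X) (hk : x * y * x⁻¹ * y⁻¹ ∈ L) (Zx Zy : Matrix (Fin m) (Fin m) F),
    IsUnit Zx → IsUnit Zy → (∀ g : L, Zx * β g = β (MulAut.conjNormal x g) * Zx) →
    (∀ g : L, Zy * β g = β (MulAut.conjNormal y g) * Zy) → Zx * Zy = β ⟨_, hk⟩ * Zy * Zx

variable {q : X →* X'} {L : Subgroup X} [L.Normal] {a : X → F} {a' : X' → F} {m : ℕ}
  {β : L →* Matrix (Fin m) (Fin m) F}

/-- the correspondence -/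
def ek (q : X →* X') (β : L →* Matrix (Fin m) (Fin m) F) (κ : L.map q → F) : L → F :=
  fun g => tr β g * κ (q.subgroupMap L g)

theorem sm_surj (q : X →* X') (L : Subgroup X) : Function.Surjective (q.subgroupMap L) :=
  MonoidHom.subgroupMap_surjective q L

theorem sm_conj [(L.map q).Normal] (x : X) (l : L) :
    q.subgroupMap L (MulAut.conjNormal x l) = MulAut.conjNormal (q x) (q.subgroupMap L l) := by
  apply Subtype.ext
  simp only [MonoidHom.subgroupMap_apply_coe, MulAut.conjNormal_apply, map_mul, map_inv]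

namespace CD

variable (D : CD ℓ q L a a' β)

include D

theorem tr_conj (x : X) (l : L) : tr β (MulAut.conjNormal x l) = tr β l := by
  obtain ⟨Z, hZ, h⟩ := D.impl x
  exact trace_conj_eq hZ (h l)

theorem four {κ : L.map q → F} (hκ : κ ∈ IBr F (L.map q)) :
    actF (fun t : L => a t) (ek q β κ) = ek q β κ ↔ actF (fun t : L.map q => a' t) κ = κ := by
  have h1 : IsCl (fun t : L.map q => a' t) := by
    intro x y
    exact D.ha' x y
  exact galF_four ℓ D.hF (q.subgroupMap L) (sm_surj q L) β D.irr (fun t : L => a t)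
    (fun t : L.map q => a' t) h1 D.sum hκ

theorem comp_mem [(L.map q).Normal] {κ : L.map q → F} (hκ : κ ∈ IBr F (L.map q)) (x' : X') :
    (fun l => κ (MulAut.conjNormal x' l)) ∈ IBr F (L.map q) :=
  ibr_equiv (MulAut.conjNormal x' : (L.map q) ≃* (L.map q)) hκ

theorem bijOn [(L.map q).Normal] (x y : X) :
    Set.BijOn (ek q β) (phiSet (L.map q) a' (q x) (q y)) (phiSet L a x y) := by
  refine ⟨?_, ?_, ?_⟩
  · rintro κ ⟨hκ, h1, h2, h3⟩
    refine ⟨?_, (D.four hκ).2 h1, fun l => ?_, fun l => ?_⟩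
    · obtain ⟨k, K, hK, rfl⟩ := hκ
      refine ⟨_, tensq (q.subgroupMap L) β K, galF_one ℓ D.hF _ (sm_surj q L) β D.irr K hK, ?_⟩
      funext g
      exact (tr_tensq _ _ _ _).symm
    · show tr β _ * κ _ = tr β l * κ _
      rw [D.tr_conj, sm_conj, h2]
    · show tr β _ * κ _ = tr β l * κ _
      rw [D.tr_conj, sm_conj, h3]
  · rintro κ ⟨hκ, _⟩ κ' ⟨hκ', _⟩ h
    exact galF_three ℓ D.hF _ (sm_surj q L) β D.irr hκ hκ' fun g => congrFun h g
  · rintro φ ⟨⟨k, V, hV, rfl⟩, h1, h2, h3⟩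
    obtain ⟨κ, hκ, h4⟩ := galF_two ℓ D.hF _ (sm_surj q L) β D.irr V hV (D.ovr k V hV h1)
    have h5 : ek q β κ = tr V := funext fun g => (h4 g).symm
    have h6 : ∀ z : X, (∀ l, tr V (MulAut.conjNormal z l) = tr V l) →
        ∀ l, κ (MulAut.conjNormal (q z) l) = κ l := by
      intro z hz l
      have h7 := galF_three ℓ D.hF _ (sm_surj q L) β D.irr (D.comp_mem hκ (q z)) hκ
        (fun g => by
          show tr β g * κ (MulAut.conjNormal (q z) (q.subgroupMap L g)) = _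
          rw [← sm_conj, ← D.tr_conj z g, ← h4, hz, h4, D.tr_conj z g])
      exact congrFun h7 l
    refine ⟨κ, ⟨hκ, ?_, h6 x h2, h6 y h3⟩, h5⟩
    rw [← D.four hκ, h5]
    exact h1

theorem tc_eq (hclu : CluStmt) [(L.map q).Normal] (x y : X) (hk : x * y * x⁻¹ * y⁻¹ ∈ L)
    {κ : L.map q → F} (hκ : κ ∈ phiSet (L.map q) a' (q x) (q y)) :
    tc (L.map q) κ (q x) (q y) = tc L (ek q β κ) x y := by
  obtain ⟨g1, g2, g3, g4⟩ := hκ
  obtain ⟨f1, _, f3, f4⟩ := (D.bijOn x y).1 ⟨g1, g2, g3, g4⟩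
  have hk' : q x * q y * (q x)⁻¹ * (q y)⁻¹ ∈ L.map q := by
    refine ⟨_, hk, ?_⟩
    rw [map_mul, map_mul, map_mul, map_inv, map_inv]
  obtain ⟨_, h1, _⟩ := hclu ℓ F D.hF X' (L.map q) κ g1 (q x) (q y) hk' g3 g4
  obtain ⟨_, _, h2⟩ := hclu ℓ F D.hF X L (ek q β κ) f1 x y hk f3 f4
  apply h2
  obtain ⟨k, K, A, B, hk'', hK, hKtr, hA, hB, h3, h4, h5⟩ := h1
  obtain ⟨Zx, hZx, hx⟩ := D.impl x
  obtain ⟨Zy, hZy, hy⟩ := D.impl y
  refine ⟨_, tensq (q.subgroupMap L) β K, kr Zx A, kr Zy B, hk,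
    galF_one ℓ D.hF _ (sm_surj q L) β D.irr K hK, ?_, kr_unit hZx hA, kr_unit hZy hB,
    fun g => ?_, fun g => ?_, ?_⟩
  · funext g
    rw [tr_tensq, hKtr]
    rfl
  · rw [tensq_apply, tensq_apply, ← kr_mul, ← kr_mul, hx, h3, sm_conj]
  · rw [tensq_apply, tensq_apply, ← kr_mul, ← kr_mul, hy, h4, sm_conj]
  · rw [tensq_apply, ← kr_mul, ← kr_mul, ← kr_mul, h5, kr_smul_right,
      D.comm x y hk Zx Zy hZx hZy hx hy]
    have h6 : q.subgroupMap L ⟨x * y * x⁻¹ * y⁻¹, hk⟩ =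
        ⟨q x * q y * (q x)⁻¹ * (q y)⁻¹, hk''⟩ := by
      apply Subtype.ext
      show q (x * y * x⁻¹ * y⁻¹) = _
      rw [map_mul, map_mul, map_mul, map_inv, map_inv]
    rw [h6]

theorem csum_eq (hclu : CluStmt) [(L.map q).Normal] (τ : F → ℂ) (x y : X)
    (hk : x * y * x⁻¹ * y⁻¹ ∈ L) :
    csum τ L a x y = csum τ (L.map q) a' (q x) (q y) := by
  unfold csum
  exact (finsum_mem_eq_of_bijOn (ek q β) (D.bijOn x y) fun κ hκ => by
    rw [D.tc_eq hclu x y hk hκ]).symm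

theorem mem_iff (x : X) : q x ∈ L.map q ↔ x ∈ L := by
  constructor
  · rintro ⟨y, hy, h⟩
    have h1 : y⁻¹ * x ∈ q.ker := by
      rw [MonoidHom.mem_ker, map_mul, map_inv, h, inv_mul_cancel]
    have h2 := L.mul_mem hy (D.ker h1)
    rwa [mul_inv_cancel_left] at h2
  · exact fun h => ⟨x, h, rfl⟩

theorem reg_iff [(L.map q).Normal] (x : X) :
    Reg ℓ (x : X ⧸ L) ↔ Reg ℓ ((q x : X') : X' ⧸ L.map q) := by
  let φ : X ⧸ L →* X' ⧸ L.map q := QuotientGroup.map L (L.map q) q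
    (fun x hx => Subgroup.mem_comap.2 ⟨x, hx, rfl⟩)
  have hφ : Function.Injective φ := by
    rw [injective_iff_map_eq_one]
    intro z
    induction z using QuotientGroup.induction_on with
    | H z =>
      intro hz
      have h1 : φ (z : X ⧸ L) = ((q z : X') : X' ⧸ L.map q) := rfl
      rw [h1, QuotientGroup.eq_one_iff, D.mem_iff] at hz
      exact (QuotientGroup.eq_one_iff z).2 hz
  have h2 : orderOf ((q x : X') : X' ⧸ L.map q) = orderOf (x : X ⧸ L) :=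
    orderOf_injective φ hφ (x : X ⧸ L)
  unfold Reg
  rw [h2]

theorem core (hcl : ClStmt) (hclu : CluStmt) :
    {θ : X → F | θ ∈ IBr F X ∧ actF a θ = θ}.ncard =
      {κ : X' → F | κ ∈ IBr F X' ∧ actF a' κ = κ}.ncard := by
  have hn : (L.map q).Normal := Subgroup.Normal.map inferInstance q D.surj
  obtain ⟨τ, hτ⟩ := exists_lift ℓ F D.hF
  have h1 := hcl ℓ F D.hF τ hτ X L a D.ha D.hal
  have h2 := hcl ℓ F D.hF τ hτ X' (L.map q) a' D.ha' D.hal'
  set N1 := {θ : X → F | θ ∈ IBr F X ∧ actF a θ = θ}.ncard with hN1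
  set N2 := {κ : X' → F | κ ∈ IBr F X' ∧ actF a' κ = κ}.ncard with hN2
  have hcond : ∀ x y : X, (Reg ℓ (x : X ⧸ L) ∧ x * y * x⁻¹ * y⁻¹ ∈ L) ↔
      (Reg ℓ ((q x : X') : X' ⧸ L.map q) ∧ q x * q y * (q x)⁻¹ * (q y)⁻¹ ∈ L.map q) := by
    intro x y
    rw [← D.reg_iff, ← D.mem_iff (x * y * x⁻¹ * y⁻¹), map_mul, map_mul, map_mul, map_inv,
      map_inv]
  set W : X' → X' → ℂ := fun x' y' =>
    ∑ᶠ (_ : Reg ℓ (x' : X' ⧸ L.map q) ∧ x' * y' * x'⁻¹ * y'⁻¹ ∈ L.map q),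
      csum τ (L.map q) a' x' y' with hW
  have h3 : ∀ x y : X, (∑ᶠ (_ : Reg ℓ (x : X ⧸ L) ∧ x * y * x⁻¹ * y⁻¹ ∈ L), csum τ L a x y) =
      W (q x) (q y) := by
    intro x y
    classical
    rw [hW]
    simp only
    rw [finsum_eq_if, finsum_eq_if]
    by_cases h : Reg ℓ (x : X ⧸ L) ∧ x * y * x⁻¹ * y⁻¹ ∈ L
    · rw [if_pos h, if_pos ((hcond x y).1 h), D.csum_eq hclu τ x y h.2]
    · rw [if_neg h, if_neg (fun h' => h ((hcond x y).2 h'))]
  have h4 : ∑ᶠ (x : X) (y : X), W (q x) (q y) =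
      (Nat.card q.ker : ℂ) * ((Nat.card q.ker : ℂ) * ∑ᶠ (x' : X') (y' : X'), W x' y') := by
    have h5 : ∀ x : X, ∑ᶠ y : X, W (q x) (q y) =
        (Nat.card q.ker : ℂ) * ∑ᶠ y' : X', W (q x) y' := fun x => sum_fib q D.surj _
    have h6 : ∑ᶠ (x : X) (y : X), W (q x) (q y) =
        ∑ᶠ x : X, (fun x' => (Nat.card q.ker : ℂ) * ∑ᶠ y' : X', W x' y') (q x) :=
      finsum_congr h5
    have h7 := sum_fib q D.surj (fun x' => (Nat.card q.ker : ℂ) * ∑ᶠ y' : X', W x' y')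
    refine h6.trans (h7.trans ?_)
    have := Fintype.ofFinite X'
    rw [finsum_eq_sum_of_fintype, finsum_eq_sum_of_fintype]
    simp only [Finset.mul_sum]
  have h5 : (∑ᶠ (x : X) (y : X) (_ : Reg ℓ (x : X ⧸ L) ∧ x * y * x⁻¹ * y⁻¹ ∈ L),
      csum τ L a x y) = ∑ᶠ (x : X) (y : X), W (q x) (q y) :=
    finsum_congr fun x => finsum_congr fun y => h3 x y
  rw [h5, h4] at h1
  have h6 : (∑ᶠ (x' : X') (y' : X'), W x' y') =
      (Nat.card X' : ℂ) * Nat.card (L.map q) * (N2 : ℂ) := h2.symm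
  rw [h6] at h1
  have hc1 := card_dom q D.surj
  have hc2 := card_dom (q.subgroupMap L) (sm_surj q L)
  have hc3 : Nat.card (q.subgroupMap L).ker = Nat.card q.ker := by
    apply Nat.card_congr
    refine ⟨fun z => ⟨(z : L), ?_⟩, fun z => ⟨⟨z, D.ker z.2⟩, ?_⟩, fun z => rfl, fun z => rfl⟩
    · have h7 : q.subgroupMap L z = 1 := z.2
      exact congrArg Subtype.val h7
    · exact Subtype.ext z.2
  rw [hc3] at hc2
  have hp1 : (Nat.card q.ker : ℂ) ≠ 0 := Nat.cast_ne_zero.2 Nat.card_pos.ne'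
  have hp2 : (Nat.card X' : ℂ) ≠ 0 := Nat.cast_ne_zero.2 Nat.card_pos.ne'
  have hp3 : (Nat.card (L.map q) : ℂ) ≠ 0 := Nat.cast_ne_zero.2 Nat.card_pos.ne'
  rw [hc1, hc2] at h1
  push_cast at h1
  have h8 : ((Nat.card q.ker : ℂ) * (Nat.card q.ker : ℂ) * (Nat.card X' : ℂ) *
      (Nat.card (L.map q) : ℂ)) * (N1 : ℂ) = ((Nat.card q.ker : ℂ) * (Nat.card q.ker : ℂ) *
      (Nat.card X' : ℂ) * (Nat.card (L.map q) : ℂ)) * (N2 : ℂ) := by
    linear_combination h1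
  have h9 : (N1 : ℂ) = (N2 : ℂ) :=
    mul_left_cancel₀ (mul_ne_zero (mul_ne_zero (mul_ne_zero hp1 hp1) hp2) hp3) h8
  exact_mod_cast h9

end CD

end core

end Pool.Agent.PP.H59
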