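import Pool.Agent.Helper33_PP.Gal
import Pool.Agent.Helper58_CL.Stmt

/-!
# Squad PP: Gallagher correspondence for a surjective homomorphism
-/

open scoped BigOperators

set_option linter.unusedSectionVars false

noncomputable section

namespace Pool.Agent.PP.H59

open Pool.Agent.PP Pool.Agent.PP.H33

section

variable {F X X' : Type} [Field F] [Group X] [Finite X] [Group X'] [Finite X']

/-- the tensor product with an inflated representation -/
def tensq {n m : ℕ} (q : X →* X') (α : X →* Matrix (Fin n) (Fin n) F)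
    (K : X' →* Matrix (Fin m) (Fin m) F) : X →* Matrix (Fin (n * m)) (Fin (n * m)) F where
  toFun x := kr (α x) (K (q x))
  map_one' := by rw [map_one, map_one, map_one, kr_one]
  map_mul' x y := by rw [map_mul, map_mul, map_mul, kr_mul]

theorem tensq_apply {n m : ℕ} (q : X →* X') (α : X →* Matrix (Fin n) (Fin n) F)
    (K : X' →* Matrix (Fin m) (Fin m) F) (x : X) : tensq q α K x = kr (α x) (K (q x)) := rfl

theorem tr_tensq {n m : ℕ} (q : X →* X') (α : X →* Matrix (Fin n) (Fin n) F)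
    (K : X' →* Matrix (Fin m) (Fin m) F) (x : X) :
    tr (tensq q α K) x = tr α x * tr K (q x) := kr_trace _ _

theorem irr_comp_equiv {A B : Type} [Group A] [Group B] (e : A ≃* B) {n : ℕ}
    {σ : B →* Matrix (Fin n) (Fin n) F} (hσ : IsIrr σ) : IsIrr (σ.comp e.toMonoidHom) := by
  refine ⟨hσ.1, ?_⟩
  have h : Set.range (σ.comp e.toMonoidHom) = Set.range σ := by
    ext M
    constructor
    · rintro ⟨x, rfl⟩
      exact ⟨e x, rfl⟩
    · rintro ⟨y, rfl⟩
      exact ⟨e.symm y, congrArg σ (e.apply_symm_apply y)⟩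
  rw [h]
  exact hσ.2

theorem ibr_equiv {A B : Type} [Group A] [Group B] (e : A ≃* B) {κ : B → F} (h : κ ∈ IBr F B) :
    (fun x => κ (e x)) ∈ IBr F A := by
  obtain ⟨n, ρ, hρ, rfl⟩ := h
  exact ⟨n, ρ.comp e.toMonoidHom, irr_comp_equiv e hρ, rfl⟩

theorem actF_equiv {A B : Type} [Group A] [Finite A] [Group B] [Finite B] (e : A ≃* B)
    (a f : B → F) (x : A) : actF (fun t => a (e t)) (fun t => f (e t)) x = actF a f (e x) := by
  have := Fintype.ofFinite A
  have := Fintype.ofFinite B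
  unfold actF
  rw [finsum_eq_sum_of_fintype, finsum_eq_sum_of_fintype, ← Equiv.sum_comp e.toEquiv]
  refine Finset.sum_congr rfl fun t _ => ?_
  show a (e t) * f (e (t * x)) = a (e t) * f (e t * e x)
  rw [map_mul]

theorem isCl_equiv {A B : Type} [Group A] [Group B] (e : A ≃* B) {a : B → F} (ha : IsCl a) :
    IsCl (fun t => a (e t)) := by
  intro x y
  show a (e (y * x * y⁻¹)) = a (e x)
  rw [map_mul, map_mul, map_inv]
  exact ha _ _

variable (ℓ : ℕ) (hF : GoodF ℓ F) (q : X →* X') (hq : Function.Surjective q) {n : ℕ}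
  (α : X →* Matrix (Fin n) (Fin n) F) (hα : IsIrr (α.comp q.ker.subtype))

include hF hq hα

theorem galF_one {m : ℕ} (K : X' →* Matrix (Fin m) (Fin m) F) (hK : IsIrr K) :
    IsIrr (tensq q α K) := by
  let e : X ⧸ q.ker ≃* X' := QuotientGroup.quotientKerEquivOfSurjective q hq
  obtain ⟨T, hT, hT1, _⟩ := (gal ℓ F hF X q.ker n α hα).1 m (K.comp e.toMonoidHom)
    (irr_comp_equiv e hK)
  have h : T = tensq q α K := by
    ext1 x
    rw [hT1 x]
    rfl
  rw [← h]
  exact hT

theorem galF_two {k : ℕ} (V : X →* Matrix (Fin k) (Fin k) F) (hV : IsIrr V)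
    (h : ∀ a : q.ker → F, ev (α.comp q.ker.subtype) a = 0 → ev (V.comp q.ker.subtype) a = 0) :
    ∃ κ ∈ IBr F X', ∀ x : X, tr V x = tr α x * κ (q x) := by
  let e : X ⧸ q.ker ≃* X' := QuotientGroup.quotientKerEquivOfSurjective q hq
  obtain ⟨m, K, hK, hK1⟩ := (gal ℓ F hF X q.ker n α hα).2.1 k V hV h
  refine ⟨tr (K.comp e.symm.toMonoidHom), ⟨m, _, irr_comp_equiv e.symm hK, rfl⟩, fun x => ?_⟩
  rw [hK1 x]
  have h1 : e.symm (q x) = (x : X ⧸ q.ker) := by
    rw [MulEquiv.symm_apply_eq]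
    rfl
  show _ = tr α x * (K (e.symm (q x))).trace
  rw [h1]
  rfl

theorem galF_three {κ κ' : X' → F} (h1 : κ ∈ IBr F X') (h2 : κ' ∈ IBr F X')
    (h : ∀ x : X, tr α x * κ (q x) = tr α x * κ' (q x)) : κ = κ' := by
  let e : X ⧸ q.ker ≃* X' := QuotientGroup.quotientKerEquivOfSurjective q hq
  have h3 := (gal ℓ F hF X q.ker n α hα).2.2.1 _ (ibr_equiv e h1) _ (ibr_equiv e h2) h
  funext y
  have h4 := congrFun h3 (e.symm y)
  simpa only [MulEquiv.apply_symm_apply] using h4

theorem galF_four (a : X → F) (a' : X' → F) (ha' : IsCl a')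
    (h : ∀ g : X, ∑ᶠ c : q.ker, a (g * c) • α (g * c) = Matrix.scalar (Fin n) (a' (q g)))
    {κ : X' → F} (hκ : κ ∈ IBr F X') :
    actF a (fun x : X => tr α x * κ (q x)) = (fun x : X => tr α x * κ (q x)) ↔
      actF a' κ = κ := by
  let e : X ⧸ q.ker ≃* X' := QuotientGroup.quotientKerEquivOfSurjective q hq
  have h3 := (gal ℓ F hF X q.ker n α hα).2.2.2 a (fun t => a' (e t)) (isCl_equiv e ha') h _
    (ibr_equiv e hκ)
  refine h3.trans ?_
  constructor
  · intro h4
    funext y
    have h5 := congrFun h4 (e.symm y)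
    rw [actF_equiv e a' κ (e.symm y)] at h5
    simpa only [MulEquiv.apply_symm_apply] using h5
  · intro h4
    funext y
    rw [actF_equiv e a' κ y, h4]

end

end Pool.Agent.PP.H59
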