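import Pool.Agent.Helper59_PP.Core
import Pool.Agent.Helper18_PP.Eps

/-!
# Squad PP, module DZQ: the local data for a good `ℓ`-subgroup `P`
-/

open scoped BigOperators

set_option linter.unusedSectionVars false

noncomputable section

namespace Pool.Agent.PP.H59

open Pool.Agent.PP Pool.Agent.PP.H18

/-- The local data. -/
structure LD (ℓ : ℕ) {F : Type} [Field F] {G : Type} [Group G] [Finite G] (N : Subgroup G)
    [N.Normal] (b e : G → F) (f : G ⧸ N → F) {n : ℕ} (α : G →* Matrix (Fin n) (Fin n) F)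
    (H P : Subgroup G) : Prop where
  hF : GoodF ℓ F
  nb : NB ℓ N b
  irr : IsIrr (α.comp N.subtype)
  evb : ev (α.comp N.subtype) (fun x : N => b x) = 1
  he : IsIdem e
  heb : mulF e b = e
  hf : IsIdem f
  hsum : ∀ g : G, ∑ᶠ h : N, e (g * h) • α (g * h) = Matrix.scalar (Fin n) (f g)
  good : Good ℓ N b P
  hPH : P ≤ H
  hHn : H ≤ Subgroup.normalizer (P : Set G)
  hC : Subgroup.centralizer (P : Set G) ≤ H
  hQ : Subgroup.centralizer ((P.map (QuotientGroup.mk' N) : Subgroup (G ⧸ N)) : Set (G ⧸ N)) =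
    (Subgroup.centralizer (P : Set G)).map (QuotientGroup.mk' N)

variable {ℓ : ℕ} {F : Type} [Field F] {G : Type} [Group G] [Finite G] {N : Subgroup G}
    [N.Normal] {b e : G → F} {f : G ⧸ N → F} {n : ℕ} {α : G →* Matrix (Fin n) (Fin n) F}
    {H P : Subgroup G}

/-- conjugation on the normal subgroup -/
abbrev cj (N : Subgroup G) [N.Normal] : G →* MulAut N := MulAut.conjNormal

/-- the group of automorphisms induced by `P` -/
abbrev hat (N : Subgroup G) [N.Normal] (P : Subgroup G) : Subgroup (MulAut N) := P.map (cj N)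

/-- the representation of `N`, written for the top subgroup -/
def rh (N : Subgroup G) (α : G →* Matrix (Fin n) (Fin n) F) :
    (⊤ : Subgroup N) →* Matrix (Fin n) (Fin n) F :=
  (α.comp N.subtype).comp (Subgroup.subtype ⊤)

theorem rh_apply (h : (⊤ : Subgroup N)) : rh N α h = α ((h : N) : G) := rfl

theorem mem_fix {h : N} : h ∈ fixN (hat N P) ↔ (h : G) ∈ Subgroup.centralizer (P : Set G) := by
  rw [Subgroup.mem_centralizer_iff]
  constructor
  · intro hh p hp
    have h1 := hh (cj N p) ⟨p, hp, rfl⟩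
    have h2 := congrArg Subtype.val h1
    rw [MulAut.conjNormal_apply] at h2
    exact mul_inv_eq_iff_eq_mul.1 h2
  · rintro hh _ ⟨p, hp, rfl⟩
    apply Subtype.ext
    rw [MulAut.conjNormal_apply]
    exact mul_inv_eq_iff_eq_mul.2 (hh p hp)

theorem rh_impl (g : G) : Impl (rh N α) (cj N g) (MonoidHom.toHomUnits α g) := by
  intro h h' hh
  rw [MonoidHom.coe_toHomUnits, rh_apply, rh_apply, hh, MulAut.conjNormal_apply, ← map_mul,
    ← map_mul, inv_mul_cancel_right]

theorem hat_comm {g : G} (hg : g ∈ Subgroup.centralizer (P : Set G)) :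
    ∀ p ∈ hat N P, Commute (cj N g) p := by
  rintro _ ⟨p, hp, rfl⟩
  have h1 : Commute g p := ((Subgroup.mem_centralizer_iff.1 hg) p hp).symm
  exact h1.map (cj N)

theorem hat_norm {x : G} (hx : x ∈ Subgroup.normalizer (P : Set G)) :
    ∀ p ∈ hat N P, cj N x * p * (cj N x)⁻¹ ∈ hat N P := by
  rintro _ ⟨p, hp, rfl⟩
  refine ⟨x * p * x⁻¹, (Subgroup.mem_normalizer_iff.1 hx p).1 hp, ?_⟩
  rw [map_mul, map_mul, map_inv]

namespace LD

variable (D : LD ℓ N b e f α H P)

include D

theorem b_conj (g : G) (h : N) : (fun x : N => b x) (cj N g h) = b h := by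
  show b (cj N g h : N) = b h
  rw [MulAut.conjNormal_apply]
  exact D.nb.2.1 _ _

theorem b_inv : InvF (hat N P) (fun x : N => b x) := by
  rintro _ ⟨p, _, rfl⟩ h
  exact D.b_conj p h

theorem b_ne : ∃ x ∈ fixN (hat N P), (fun x : N => b x) x ≠ 0 := by
  obtain ⟨_, _, x, hx, hxc, hb⟩ := D.good
  exact ⟨⟨x, hx⟩, mem_fix.2 hxc, hb⟩

theorem hat_p : IsPGroup ℓ (hat N P) := D.good.1.map _

theorem dzb' (hbk : BlkStmt) : DZB ℓ (fun x : fixN (hat N P) => b (x : N)) :=
  hbk ℓ F D.hF N (fun x : N => b x) D.nb.2.2.2 (hat N P) D.hat_p D.b_inv D.b_ne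

theorem exists_rep (hm : MatStmt) (hbk : BlkStmt) :
    ∃ (n' : ℕ) (ρ' : fixN (hat N P) →* Matrix (Fin n') (Fin n') F), IsIrr ρ' ∧
      ev ρ' (fun x => b (x : N)) = 1 :=
  (hm ℓ F D.hF _ _ (D.dzb' hbk)).1

theorem dat {n' : ℕ} {ρ' : fixN (hat N P) →* Matrix (Fin n') (Fin n') F} (h1 : IsIrr ρ')
    (h2 : ev ρ' (fun x => b (x : N)) = 1) :
    Dat ℓ F (fun x : N => b x) (hat N P) (rh N α) ρ' where
  good := D.hF
  hb := D.nb.2.2.2
  hP := D.hat_p
  inv := D.b_inv
  irr := H18.irr_equiv (Subgroup.topEquiv (G := N)) D.irr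
  irr' := h1
  evb := by
    have h := H18.ev_equiv (Subgroup.topEquiv (G := N)) (α.comp N.subtype) (fun x : N => b x)
    rw [D.evb] at h
    exact h
  evb' := h2

variable {n' : ℕ} {ρ' : fixN (hat N P) →* Matrix (Fin n') (Fin n') F} (h1 : IsIrr ρ')
    (h2 : ev ρ' (fun x => b (x : N)) = 1) (hm : MatStmt) (hc : IbcStmt)

include h1 h2 hm hc

theorem fixM {g : G} (hg : g ∈ Subgroup.centralizer (P : Set G)) :
    FixM (rh N α) (hat N P) (α g) :=
  ((D.dat h1 h2).comm hm hc (cj N g) (hat_comm hg) _ (rh_impl g)).1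

/-- the truncated representation of the centraliser of `P` -/
def bt : Subgroup.centralizer (P : Set G) →* Matrix (Fin n') (Fin n') F where
  toFun g := bet (hat N P) (rh N α) ρ' (α g)
  map_one' := by
    rw [Subgroup.coe_one, map_one]
    exact (D.dat h1 h2).one hm
  map_mul' x y := by
    rw [Subgroup.coe_mul, map_mul]
    exact ((D.dat h1 h2).mul hm hc (D.fixM h1 h2 hm hc x.2) (D.fixM h1 h2 hm hc y.2)).2

theorem bt_apply (g : Subgroup.centralizer (P : Set G)) :
    D.bt h1 h2 hm hc g = bet (hat N P) (rh N α) ρ' (α g) := rfl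

/-- on the fixed points the truncated representation is `ρ'` -/
theorem bt_fix (h : fixN (hat N P)) :
    D.bt h1 h2 hm hc ⟨((h : N) : G), mem_fix.1 h.2⟩ = ρ' h := by
  rw [bt_apply]
  have e1 : α ((h : N) : G) = ev (rh N α) (fun x => dl F (h : N) x) := by
    rw [ev_tp, ev_dl, tp_apply]
    rfl
  have e2 : ev ρ' (fun x => dl F (h : N) x) = ρ' h := by
    have : (fun x : fixN (hat N P) => dl F (h : N) x) = dl F h := by
      funext x
      by_cases hx : x = h
      · have hx' : (x : N) = h := congrArg Subtype.val hx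
        unfold dl
        rw [if_pos hx', if_pos hx]
      · have hx' : ¬ (x : N) = h := fun e => hx (Subtype.ext e)
        unfold dl
        rw [if_neg hx', if_neg hx]
    rw [this, ev_dl]
  show bet (hat N P) (rh N α) ρ' (α ((h : N) : G)) = ρ' h
  rw [e1, (D.dat h1 h2).bet_ev hm (inv_dl (h : N) h.2), e2]

/-- the truncation of a scalar matrix -/
theorem bet_scalar (w : F) : bet (hat N P) (rh N α) ρ' (Matrix.scalar (Fin n) w) =
    Matrix.scalar (Fin n') w := by
  have e1 : ∀ {m : ℕ} {K : Subgroup N} (σ : K →* Matrix (Fin m) (Fin m) F),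
      ev σ (fun x => (fun y : N => w * b y) x) = w • ev σ (fun x => b (x : N)) := by
    intro m K σ
    have := Fintype.ofFinite K
    unfold ev
    rw [finsum_eq_sum_of_fintype, finsum_eq_sum_of_fintype, Finset.smul_sum]
    exact Finset.sum_congr rfl fun t _ => by rw [smul_smul]
  have e2 : InvF (hat N P) (fun y : N => w * b y) := by
    intro p hp h
    have := D.b_inv p hp h
    show w * b (p h) = w * b h
    rw [show b (p h : N) = b h from this]
  have e3 : ∀ {m : ℕ}, Matrix.scalar (Fin m) w = w • (1 : Matrix (Fin m) (Fin m) F) := by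
    intro m
    rw [Matrix.scalar_apply, Matrix.smul_one_eq_diagonal]
  have e4 := (D.dat h1 h2).bet_ev hm e2
  rw [e1, e1, show ev (rh N α) (fun x => b ((x : N) : G)) = 1 from (D.dat h1 h2).evb, h2] at e4
  rw [e3, e3]
  exact e4

/-- the sum over a coset of the fixed points -/
theorem bt_sum (g : Subgroup.centralizer (P : Set G)) :
    D.bt h1 h2 hm hc g * ev ρ' (fun x => e (g * ((x : N) : G))) =
      Matrix.scalar (Fin n') (f ((g : G) : G ⧸ N)) := by
  set v : N → F := fun h => e (g * h) with hv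
  have hinv : InvF (hat N P) v := by
    rintro _ ⟨p, hp, rfl⟩ h
    show e (g * (cj N p h : N)) = e (g * h)
    have h3 : (p : G) * g = g * p := (Subgroup.mem_centralizer_iff.1 g.2) p hp
    have h4 : (g : G) * (cj N p h : N) = p * (g * h) * p⁻¹ := by
      rw [MulAut.conjNormal_apply]
      simp only [← mul_assoc]
      rw [h3]
    rw [h4]
    exact D.he.1 _ _
  have e1 : α g * ev (rh N α) (fun x => v x) = Matrix.scalar (Fin n) (f ((g : G) : G ⧸ N)) := by
    rw [← D.hsum g]
    have h5 := H18.ev_equiv (Subgroup.topEquiv (G := N)) (α.comp N.subtype) v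
    have h6 : ev (rh N α) (fun x => v x) = ev (α.comp N.subtype) v := h5
    rw [h6]
    have := Fintype.ofFinite N
    unfold ev
    rw [finsum_eq_sum_of_fintype, finsum_eq_sum_of_fintype, Finset.mul_sum]
    refine Finset.sum_congr rfl fun t _ => ?_
    rw [mul_smul_comm, map_mul]
    rfl
  have e2 := ((D.dat h1 h2).mul hm hc (D.fixM h1 h2 hm hc g.2) ((D.dat h1 h2).fix hinv)).2
  rw [e1, D.bet_scalar h1 h2 hm hc, (D.dat h1 h2).bet_ev hm hinv] at e2
  exact e2.symm

/-- implementation -/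
theorem bt_conj (hbk : BlkStmt) {x : G} (hx : x ∈ Subgroup.normalizer (P : Set G)) :
    ∃ Z : (Matrix (Fin n') (Fin n') F)ˣ, Impl ρ' (cj N x) Z := by
  have h3 := fixN_stable (hat_norm (N := N) hx)
  refine exists_impl D.hF hm hc (b := fun x : N => b x) (D.dzb' hbk) ρ' h1 h2 (cj N x) h3.2 ?_
  exact D.b_conj x

theorem bt_conj' {x : G} (hx : x ∈ Subgroup.normalizer (P : Set G))
    (Z : (Matrix (Fin n') (Fin n') F)ˣ) (hZ : Impl ρ' (cj N x) Z)
    (g g' : Subgroup.centralizer (P : Set G)) (hg : (g' : G) = x * g * x⁻¹) :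
    (Z : Matrix (Fin n') (Fin n') F) * D.bt h1 h2 hm hc g = D.bt h1 h2 hm hc g' * Z := by
  have h3 := ((D.dat h1 h2).conj hm hc (cj N x) (hat_norm hx) _ Z (rh_impl x) hZ (α g)
    (D.fixM h1 h2 hm hc g.2)).2
  have h4 : ((MonoidHom.toHomUnits α x : (Matrix (Fin n) (Fin n) F)ˣ) :
      Matrix (Fin n) (Fin n) F) * α g *
      (((MonoidHom.toHomUnits α x)⁻¹ : (Matrix (Fin n) (Fin n) F)ˣ) : Matrix (Fin n) (Fin n) F) =
      α g' := by
    rw [← map_inv, MonoidHom.coe_toHomUnits, MonoidHom.coe_toHomUnits, ← map_mul, ← map_mul, hg]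
  rw [h4] at h3
  rw [bt_apply, bt_apply, h3, mul_assoc, Units.inv_mul, mul_one]

theorem bt_comm (heps : EpsStmt) {x y : G} (hx : x ∈ Subgroup.normalizer (P : Set G))
    (hy : y ∈ Subgroup.normalizer (P : Set G))
    (hxy : x * y * x⁻¹ * y⁻¹ ∈ Subgroup.centralizer (P : Set G))
    (X Y : (Matrix (Fin n') (Fin n') F)ˣ) (hX : Impl ρ' (cj N x) X) (hY : Impl ρ' (cj N y) Y) :
    (X : Matrix (Fin n') (Fin n') F) * Y = D.bt h1 h2 hm hc ⟨_, hxy⟩ * Y * X := by
  have hD := D.dat h1 h2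
  obtain ⟨a, ha, ha'⟩ := hD.surj hm hc (D.fixM h1 h2 hm hc hxy)
  have h3 := heps ℓ F D.hF N (fun x : N => b x) D.nb.2.2.2 (hat N P) D.hat_p D.b_inv D.b_ne n n'
    (rh N α) ρ' hD.irr h1 hD.evb h2 (cj N x) (cj N y) (hat_norm hx) (hat_norm hy) (D.b_conj x)
    (D.b_conj y) (by
      have h4 : cj N x * cj N y * (cj N x)⁻¹ * (cj N y)⁻¹ = cj N (x * y * x⁻¹ * y⁻¹) := by
        rw [map_mul, map_mul, map_mul, map_inv, map_inv]
      rw [h4]
      exact hat_comm hxy)
    (MonoidHom.toHomUnits α x) (MonoidHom.toHomUnits α y) X Y (rh_impl x) (rh_impl y) hX hY a ha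
    (by
      rw [ha', ← map_inv, ← map_inv, ← map_mul, ← map_mul, ← map_mul,
        MonoidHom.coe_toHomUnits])
  rw [bt_apply]
  show _ = bet (hat N P) (rh N α) ρ' (α (x * y * x⁻¹ * y⁻¹)) * Y * X
  rw [← ha', hD.bet_ev hm ha, h3]
  simp only [Units.val_mul, mul_assoc, Units.inv_mul, mul_one]

end LD

end Pool.Agent.PP.H59
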